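import Mathlib
import Pool.Agent.W5h22.RB.G

set_option autoImplicit false

/-!
# The formula of Hardy and Littlewood after the deletion of a thin set of primes

Delete from the primes `p ≤ 2X` an arbitrary set of at most `η X / log X` primes. Then the asymptotic formula of
Hardy and Littlewood persists, up to a fixed small error `κ √X / log X`, for all but at most `C η^K X` of the
`|a| ≤ X`, where the power `K` is arbitrary and `C` depends on `K` and `κ` only. (With `K = 1`, or less, such a
bound would be the trivial expectation from a first moment: `η X` of the shifts could be affected.)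

Proof. (1) For an arbitrary function on the primes the sum over the prime values `|n² + a|` is, for almost all `a`,
close to the same sum for the function averaged over the shifts by `W, 2 W, ..., J W`, for some fixed `W`
(`transfer`; circle method with the large values of the Weyl sums and the large sieve for few points). (2) The
averaged function is a function of the residue class mod `W` and of a real variable; the average over the squares
improves integrability: a local inequality from `L²` to `L^{2K}` for the operator
`Φ ↦ (1/φ(W)) ∑_{c mod W} Φ(t + c²)` on the functions supported on the reduced classes, with one constant for all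
`W` (`local_ineq`; proved for prime powers with constant `1 + O(p⁻²)` for large `p`, then multiplied by Minkowski's
inequality). (3) The number of deleted primes gives the `L²` norm, by the Brun–Titchmarsh inequality.
-/

namespace Pool.Agent.Results.MP_391708_nt.DeletedPrimes

open Finset Filter Topology

/-- The product which defines `h_a`, over the odd primes `w ≤ z` (`jacobiSym (-a) w` is the Legendre symbol). -/
noncomputable def product (a : ℤ) (z : ℕ) : ℝ :=
  ∏ w ∈ (Icc 3 z).filter Nat.Prime, (1 - (jacobiSym (-a) w : ℝ) / ((w : ℝ) - 1))

/-- `H = h_a`: the product over the odd primes, in increasing order, converges to `H`. -/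
def IsConstant (a : ℤ) (H : ℝ) : Prop := Tendsto (product a) atTop (𝓝 H)

/-- The sum of `g(|n² + a|)` over the `n`, `1 ≤ n ≤ y`, for which `|n² + a|` is a prime. (If `g` is the indicator of
a set of primes, this is the number of the `n ≤ y` for which `|n² + a|` is a prime of the set.) -/
noncomputable def total (g : ℕ → ℝ) (a : ℤ) (y : ℕ) : ℝ :=
  ∑ n ∈ Icc 1 y, if ((n : ℤ) ^ 2 + a).natAbs.Prime then g ((n : ℤ) ^ 2 + a).natAbs else 0

/-- The mass deleted: the sum of `1 - g(p)` over the primes `p ≤ t`. (If `g` is the indicator of a set of primes,
this is the number of the primes `p ≤ t` outside the set.) -/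
noncomputable def deleted (g : ℕ → ℝ) (t : ℕ) : ℝ := ∑ p ∈ (Icc 1 t).filter Nat.Prime, (1 - g p)

open Classical in
/-- The integers `a` with `|a| ≤ X` for which it is not true that the product `h_a` converges and
`|∑ g(|n² + a|) - h_a y / log X| ≤ κ √X / log X` for all `y ≤ √X`. -/
noncomputable def exceptions (g : ℕ → ℝ) (κ : ℝ) (X : ℕ) : Finset ℤ :=
  (Icc (-(X : ℤ)) X).filter (fun a : ℤ => ¬ ∃ H : ℝ, IsConstant a H ∧
    ∀ y : ℕ, y ^ 2 ≤ X → |total g a y - H * y / Real.log X| ≤ κ * (Real.sqrt X / Real.log X))

/-- **Stability of the formula of Hardy and Littlewood for almost all `a` under the deletion of primes.** For every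
`K` and every `κ > 0` there is a `C` such that for every `η > 0` and all large `X`: if `g` is any function on
the primes with `0 ≤ g ≤ 1` (for instance the indicator of any set of primes, which may depend on `X`) and the
mass deleted up to `2X` is at most `η X / log X`, then for all but at most `C η^K X` of the integers `|a| ≤ X`
the product `h_a` converges and the sum of `g(|n² + a|)` over the `n ≤ y` for which `|n² + a|` is prime differs
from `h_a y / log X` by at most `κ √X / log X`, for all `y ≤ √X` at once. -/
theorem result (K : ℕ) (κ : ℝ) (hκ : 0 < κ) : ∃ C : ℝ, ∀ η : ℝ, 0 < η → ∃ X₀ : ℕ, ∀ X : ℕ, X₀ ≤ X →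
    ∀ g : ℕ → ℝ, (∀ p : ℕ, p.Prime → 0 ≤ g p ∧ g p ≤ 1) → deleted g (2 * X) ≤ η * (X / Real.log X) →
      (#(exceptions g κ X) : ℝ) ≤ C * η ^ K * X := by
  classical
  obtain ⟨C, hC⟩ := Pool.Agent.W5h22.RB.main2 K κ hκ
  refine ⟨C, fun η hη => ?_⟩
  obtain ⟨X₀, h0⟩ := hC η hη
  refine ⟨X₀, fun X hX g hg hdel => ?_⟩
  obtain ⟨g', hg'⟩ : ∃ g' : ℕ → ℝ, g' = fun p => if p.Prime then g p else 0 := ⟨_, rfl⟩
  have e1 : ∑ p ∈ (Icc 1 (2 * X)).filter Nat.Prime, (1 - g' p) = deleted g (2 * X) := by
    unfold deleted
    apply sum_congr rfl
    intro p hp
    rw [hg', mem_filter] at *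
    simp only [if_pos hp.2]
  have e2 : ∀ (a : ℤ) (y : ℕ), Pool.Agent.W5h22.PV.R g' a y = total g a y := by
    intro a y
    unfold Pool.Agent.W5h22.PV.R total
    apply sum_congr rfl
    intro n _
    by_cases hp : ((n : ℤ) ^ 2 + a).natAbs.Prime
    · rw [if_pos hp, if_pos hp, hg']
      simp only [if_pos hp]
    · rw [if_neg hp, if_neg hp]
  have h1 := h0 X hX g' (by
    intro p
    rw [hg']
    simp only
    split_ifs with hp
    · exact (hg p hp).1
    · exact le_rfl) (by
    intro p
    rw [hg']
    simp only
    split_ifs with hp
    · exact (hg p hp).2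
    · exact zero_le_one) (by rw [e1]; exact hdel)
  unfold exceptions IsConstant
  simp only [e2] at h1
  exact h1

end Pool.Agent.Results.MP_391708_nt.DeletedPrimes
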