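import Mathlib
import Pool.Agent.W5h22.DS.F

set_option autoImplicit false

/-!
# Values `n² + a` in an arbitrary dense set of primes

Let `P` be an arbitrary set which contains at least `β X / log X` of the primes up to `X`. A first moment shows that
on average over `|a| ≤ X` the set `P` contains about `β √X / log X` of the values `|n² + a|`, `n ≤ √X`; these could
be concentrated on `β X` shifts `a`. We show that they are spread over at least `c β^ε X` shifts, for every
`ε > 0`, and that for so many shifts there are at least `c β √X / log X` values in `P`. (The loss `β^ε` cannot be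
replaced by a constant: if `P` is one residue class mod `q` then `a` must lie in a shift of the negatives of the
squares mod `q`, a set of density about `2^{-ω(q)}`.)

Proof. (1) For an arbitrary function on the primes the sum over the prime values `n² + a` is, for almost all `a`,
close to the same sum for the function averaged over the shifts by `W, 2 W, ..., J W`, for some fixed `W`
(`RB.transfer`, `DS.transfer1`; circle method with the large values of the Weyl sums and the large sieve for few
points). (2) The averaged function is a function of a residue class mod `W` and of a real variable. The local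
inequality from `L²` to `L^{2K}` for the operator `Φ ↦ (1/φ(W)) ∑_{c mod W} Φ(t + c²)` on functions supported on
the reduced classes, uniform in `W` (`RB.local_ineq`), is dualised; it then bounds the sum over a set of residue
classes `t` of density `s` by `s^{1 - 1/(2K)}` times the `L²` norm of the dual function, and interpolated with the
trivial `L^∞` bound (Brun–Titchmarsh) it bounds the mass which a set of shifts of density `s` can carry by
`C s^{K+1} / λ^{2K+1}` + `λ` times the mean (`DS.split_lam`, `DS.block`). (3) With the first moment this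
gives the lower bound for the number of shifts (`DS.many`, `DS.dense`).
-/

namespace Pool.Agent.Results.MP_391708_nt.DenseSetsOfPrimes

open Finset Filter Topology

open Classical in
/-- The number of the primes `p ≤ X` in the set `P`. -/
noncomputable def primesIn (P : Set ℕ) (X : ℕ) : ℕ := #((Icc 1 X).filter (fun p => p.Prime ∧ p ∈ P))

open Classical in
/-- The number of the integers `n`, `1 ≤ n ≤ √X`, for which `|n² + a|` is a prime in the set `P`. -/
noncomputable def count (P : Set ℕ) (X : ℕ) (a : ℤ) : ℕ :=
  #((Icc 1 (Nat.sqrt X)).filter (fun n : ℕ => ((n : ℤ) ^ 2 + a).natAbs.Prime ∧ ((n : ℤ) ^ 2 + a).natAbs ∈ P))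

/-- **Values `n² + a` in an arbitrary dense set of primes.** For every `ε > 0` there is a `c > 0` such that for
every `0 < β ≤ 1` and all large `X`: if `P` is any set (which may depend on `X`) with at least `β X / log X`
primes up to `X`, then for at least `c β^ε X` of the integers `|a| ≤ X` there are at least `c β √X / log X`
integers `n ≤ √X` for which `|n² + a|` is a prime in `P`. -/
theorem result (ε : ℝ) (hε : 0 < ε) : ∃ c : ℝ, 0 < c ∧ ∀ β : ℝ, 0 < β → β ≤ 1 → ∃ X₀ : ℕ, ∀ X : ℕ, X₀ ≤ X →
    ∀ P : Set ℕ, β * (X / Real.log X) ≤ primesIn P X →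
      c * β ^ ε * X ≤ #((Icc (-(X : ℤ)) X).filter (fun a : ℤ => c * β * (Real.sqrt X / Real.log X) ≤ count P X a)) := by
  classical
  obtain ⟨K, hK⟩ := exists_nat_gt (1 / ε)
  obtain ⟨c, hc, hd⟩ := Pool.Agent.W5h22.DS.dense K
  refine ⟨c, hc, fun β hβ hβ1 => ?_⟩
  obtain ⟨X₀, h0⟩ := eventually_atTop.1 (hd β hβ)
  refine ⟨X₀, fun X hX P hP => ?_⟩
  have h1 := h0 X hX P (by
    unfold primesIn at hP
    unfold Pool.Agent.W5h22.DS.PN
    convert hP)
  have h2 : c * β ^ ε * X ≤ c * β ^ ((((K + 1 : ℕ)) : ℝ)⁻¹) * X := by
    apply mul_le_mul_of_nonneg_right _ (Nat.cast_nonneg X)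
    apply mul_le_mul_of_nonneg_left _ hc.le
    apply Real.rpow_le_rpow_of_exponent_ge hβ hβ1
    rw [inv_le_comm₀ (by positivity) hε]
    push_cast
    rw [one_div] at hK
    linarith
  refine h2.trans (h1.trans ?_)
  have h3 : (Icc (-(X : ℤ)) X).filter (fun a : ℤ => c * β * (Real.sqrt X / Real.log X) ≤
        ∑ n ∈ Ioc (Nat.sqrt X / 2) (Nat.sqrt X), Pool.Agent.W5h22.PV.pw (Pool.Agent.W5h22.DS.ind P X) (a + (n : ℤ) ^ 2)) ⊆
      (Icc (-(X : ℤ)) X).filter (fun a : ℤ => c * β * (Real.sqrt X / Real.log X) ≤ count P X a) := by
    intro a ha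
    rw [mem_filter] at *
    refine ⟨ha.1, ha.2.trans ?_⟩
    unfold count
    rw [card_filter]
    push_cast
    have h4 : ∀ n : ℕ, Pool.Agent.W5h22.PV.pw (Pool.Agent.W5h22.DS.ind P X) (a + (n : ℤ) ^ 2) ≤
        if ((n : ℤ) ^ 2 + a).natAbs.Prime ∧ ((n : ℤ) ^ 2 + a).natAbs ∈ P then (1 : ℝ) else 0 := by
      intro n
      unfold Pool.Agent.W5h22.PV.pw
      split_ifs with hp hq hq
      · exact Pool.Agent.W5h22.DS.ind_le _ _ _
      · have h5 : (a + (n : ℤ) ^ 2).toNat = ((n : ℤ) ^ 2 + a).natAbs := by
          have h6 := hp.pos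
          rw [add_comm]
          omega
        rw [h5] at hp ⊢
        unfold Pool.Agent.W5h22.DS.ind
        rw [if_neg]
        intro h
        exact hq ⟨hp, h.2.2⟩
      · exact zero_le_one
      · exact le_rfl
    calc _ ≤ ∑ n ∈ Ioc (Nat.sqrt X / 2) (Nat.sqrt X), (if ((n : ℤ) ^ 2 + a).natAbs.Prime ∧ ((n : ℤ) ^ 2 + a).natAbs ∈ P then (1 : ℝ) else 0) :=
          sum_le_sum fun n _ => h4 n
      _ ≤ ∑ n ∈ Icc 1 (Nat.sqrt X), (if ((n : ℤ) ^ 2 + a).natAbs.Prime ∧ ((n : ℤ) ^ 2 + a).natAbs ∈ P then (1 : ℝ) else 0) := by
          apply sum_le_sum_of_subset_of_nonneg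
          · intro n hn
            rw [mem_Ioc] at hn
            rw [mem_Icc]
            omega
          · intro n _ _
            split_ifs <;> norm_num
  exact_mod_cast card_le_card h3

end Pool.Agent.Results.MP_391708_nt.DenseSetsOfPrimes
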