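import Mathlib
import Pool.Agent.W5h22.PV.G

set_option autoImplicit false

/-!
# Primes `|n² + a|` in an arbitrary equidistributed set of primes

The asymptotic formula of Hardy and Littlewood holds for almost all `a` not only for the set of all primes:
it holds, with the same constant `h_a`, for the primes of every set (more generally, for every bounded
function on the primes) which is equidistributed in the residue classes, for every fixed modulus, without any
other property and without any rate.

Proof. The circle method with the large values of the Weyl sums: a Weyl sum of size at least `N / u` lies near a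
fraction whose denominator is at most a power of `u` (inverse theorem), and an arbitrary function on the primes has
mean square `O(N⁴ log K / (log N)²)` on any `K` frequencies (large sieve for few points), so that no logarithm is
lost and the frequencies with `u` large are negligible. The other frequencies are close to multiples of `1 / W`
for a fixed `W`, where the function minus its average over the shifts by `W, 2 W, ..., J W` has a small transform.
The averages are small by equidistribution if the mean value is zero. The case of all primes is known (with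
the convergent product `h_a`: `R460/SC`).
-/

namespace Pool.Agent.Results.MP_391708_nt.EquidistributedSubsets

open Finset Filter Topology

/-- The product which defines `h_a`, over the odd primes `w ≤ z` (`jacobiSym (-a) w` is the Legendre symbol). -/
noncomputable def product (a : ℤ) (z : ℕ) : ℝ :=
  ∏ w ∈ (Icc 3 z).filter Nat.Prime, (1 - (jacobiSym (-a) w : ℝ) / ((w : ℝ) - 1))

/-- `H = h_a`: the product over the odd primes, in increasing order, converges to `H`. -/
def IsConstant (a : ℤ) (H : ℝ) : Prop := Tendsto (product a) atTop (𝓝 H)

/-- The primes `p ≤ t` with `p ≡ b (mod q)`. -/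
def primesIn (q b t : ℕ) : Finset ℕ := (Icc 1 t).filter (fun p => p.Prime ∧ p ≡ b [MOD q])

/-- The mean value of `f` over the primes `p ≤ t`, `p ≡ b (mod q)`. -/
noncomputable def mean (f : ℕ → ℝ) (q b t : ℕ) : ℝ := (∑ p ∈ primesIn q b t, f p) / #(primesIn q b t)

/-- The sum of `f(|n² + a|)` over the `n`, `1 ≤ n ≤ y`, for which `|n² + a|` is a prime. -/
noncomputable def total (f : ℕ → ℝ) (a : ℤ) (y : ℕ) : ℝ :=
  ∑ n ∈ Icc 1 y, if ((n : ℤ) ^ 2 + a).natAbs.Prime then f ((n : ℤ) ^ 2 + a).natAbs else 0

open Classical in
/-- The integers `a` with `|a| ≤ X` for which it is not true that the product `h_a` converges and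
`|∑ f(|n² + a|) - δ h_a y / log X| ≤ ε √X / log X` for all `y ≤ √X`. -/
noncomputable def exceptions (f : ℕ → ℝ) (δ ε : ℝ) (X : ℕ) : Finset ℤ :=
  (Icc (-(X : ℤ)) X).filter (fun a : ℤ => ¬ ∃ H : ℝ, IsConstant a H ∧
    ∀ y : ℕ, y ^ 2 ≤ X → |total f a y - δ * H * y / Real.log X| ≤ ε * (Real.sqrt X / Real.log X))

/-- **The formula of Hardy and Littlewood in every equidistributed set of primes, for almost all `a`.** Let `f` be
a function on the primes with `|f| ≤ 1` (for instance the indicator of a set of primes) which has the mean
value `δ` over the primes of every reduced residue class. Then for every `ε > 0` and all large `X`,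
for all but at most `ε X` of the integers `|a| ≤ X` the product `h_a` converges and the sum of `f(|n² + a|)` over
the `n ≤ y` for which `|n² + a|` is prime is `δ h_a y / log X + O(ε √X / log X)`, for all `y ≤ √X` at once. -/
theorem result (f : ℕ → ℝ) (hf : ∀ p : ℕ, p.Prime → |f p| ≤ 1) (δ : ℝ)
    (hδ : ∀ q b : ℕ, 1 ≤ q → Nat.Coprime b q → Tendsto (fun t : ℕ => mean f q b t) atTop (𝓝 δ)) :
    ∀ ε : ℝ, 0 < ε → ∃ X₀ : ℕ, ∀ X : ℕ, X₀ ≤ X → (#(exceptions f δ ε X) : ℝ) ≤ ε * X := by
  classical
  intro ε hε
  obtain ⟨f', hf'⟩ : ∃ f' : ℕ → ℝ, f' = fun p => if p.Prime then f p else 0 := ⟨_, rfl⟩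
  have e1 : ∀ q b t : ℕ, Pool.Agent.W5h22.PV.mean f' q b t = mean f q b t := by
    intro q b t
    unfold Pool.Agent.W5h22.PV.mean mean primesIn
    congr 1
    apply sum_congr rfl
    intro p hp
    rw [hf', mem_filter] at *
    simp only [if_pos hp.2.1]
  have e2 : ∀ (a : ℤ) (y : ℕ), Pool.Agent.W5h22.PV.R f' a y = total f a y := by
    intro a y
    unfold Pool.Agent.W5h22.PV.R total
    apply sum_congr rfl
    intro n _
    by_cases hp : ((n : ℤ) ^ 2 + a).natAbs.Prime
    · rw [if_pos hp, if_pos hp, hf']
      simp only [if_pos hp]
    · rw [if_neg hp, if_neg hp]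
  obtain ⟨X₀, h0⟩ := Pool.Agent.W5h22.PV.main f' (by
    intro p
    rw [hf']
    simp only
    split_ifs with hp
    · exact hf p hp
    · rw [abs_zero]; norm_num) δ (by
    intro q b hq hb
    refine (hδ q b hq hb).congr (fun t => ?_)
    rw [e1]) ε hε
  refine ⟨X₀, fun X hX => ?_⟩
  have h1 := h0 X hX
  unfold exceptions IsConstant
  simp only [e2] at h1
  exact h1

end Pool.Agent.Results.MP_391708_nt.EquidistributedSubsets
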