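import Pool.Agent.W5h22.QM.H
import Pool.Agent.W5h22.QM.I

/-!
# Almost primes `n ^ 2 + a` along the sequence `n = ⌊α D k⌋`, for almost all `α`

Let `D 0 < D 1 < ...` be natural numbers, each dividing the next one; for instance `D k = b ^ k`, when `⌊α D k⌋` is the
truncated expansion of `α` in base `b`, or `D k = (k + 1)!`. A prime value of `|n ^ 2 + a|` near `n` has density about
`1 / log n`, so one expects that for almost every `α > 0` the values `|⌊α D k⌋ ^ 2 + a|` are prime for infinitely many
`k` if and only if the series `∑ 1 / log (D k)` diverges, and then for about `∑ 1 / log (D k)` of the `k < K`. We prove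
this with almost primes (products of at most three primes, all at least `(D k) ^ (1 / 6)`) instead of primes, with the
right order of magnitude for all large `K`, for all admissible `a` at once. If the series converges, then for almost
every `α` the numbers `⌊α D k⌋ ^ 2 + a` have small prime factors for all large `k`; nevertheless the set of the `α` with
infinitely many almost primes, for all `a` at once, is always residual and of Hausdorff dimension one.

Proof. Almost all short intervals contain the expected number of almost primes `n ^ 2 + a` (starting files, `Y882`).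
So off a null set the average of the indicator function of the almost primes over the cell of `α` at the scale
`D l`, `(D l) ^ 3 ≤ D k`, is of order `1 / log (D k)` for all large `k`. The differences between the indicator functions
and these averages are orthogonal for scales far apart; for near scales their correlation is bounded with an upper
bound sieve for the pairs `n`, `g n + j`, and the average over `j` of the singular series (`W5h22/QM/C`, `D`).
-/

set_option autoImplicit false

namespace Pool.Agent.Results.MP_391708_nt.MetricAlmostPrimes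

open Filter MeasureTheory

/-- `D` is a strictly increasing sequence of natural numbers, each of which divides the next one
(for instance `D k = b ^ k`, `b ≥ 2`, when `⌊α D k⌋` is the truncated expansion of `α` in base `b`) -/
def Chain (D : ℕ → ℕ) : Prop := StrictMono D ∧ ∀ k, D k ∣ D (k + 1)

/-- `n ≥ 1` and `|n ^ 2 + a|` is a product of at most three primes, all at least `x ^ (1 / 6)` -/
def AlmostPrime (a : ℤ) (x n : ℕ) : Prop :=
  1 ≤ n ∧ ((n : ℤ) ^ 2 + a).natAbs.primeFactorsList.length ≤ 3 ∧
    ∀ p : ℕ, p.Prime → (p : ℤ) ∣ (n : ℤ) ^ 2 + a → (x : ℝ) ^ (1 / 6 : ℝ) ≤ p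

open Classical in
/-- the number of the `k < K` for which `n = ⌊α D k⌋` is an almost prime argument at the scale `D k` -/
noncomputable def count (a : ℤ) (D : ℕ → ℕ) (α : ℝ) (K : ℕ) : ℕ :=
  ((Finset.range K).filter (fun k => AlmostPrime a (D k) ⌊α * (D k : ℝ)⌋₊)).card

/-- the sum of `1 / log (D k)` over `k < K` -/
noncomputable def logSum (D : ℕ → ℕ) (K : ℕ) : ℝ := ∑ k ∈ Finset.range K, 1 / Real.log (D k)

/-- the `α > 0` with infinitely many `k` for which `⌊α D k⌋` is an almost prime argument, for each admissible `a` -/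
def InfinitelyOften (D : ℕ → ℕ) : Set ℝ :=
  {α : ℝ | 0 < α ∧ ∀ a : ℤ, ¬ IsSquare (-a) → ∃ᶠ k in atTop, AlmostPrime a (D k) ⌊α * (D k : ℝ)⌋₊}

/-- There are positive constants `c a`, `C a` (for `-a` not a square) such that for every chain `D`:
(1) if `∑ 1 / log (D k)` diverges, then for almost every `α > 0` and all such `a` at once, the number of the
`k < K` with `|⌊α D k⌋ ^ 2 + a|` a product of at most three primes, all `≥ (D k) ^ (1 / 6)`, is between
`c a * logSum D K` and `C a * logSum D K` for all large `K`;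
(2) if the series converges, then for almost every `α > 0`, all such `a` and all `δ > 0`, for all but finitely many
`k` the integer `⌊α D k⌋ ^ 2 + a` has a prime factor below `(D k) ^ δ`;
(3) in both cases the `α > 0` with infinitely many such almost primes for all admissible `a` at once form a residual
set in `(0, ∞)`, of Hausdorff dimension one in every interval. -/
theorem result : ∃ c C : ℤ → ℝ, (∀ a, 0 < c a ∧ 0 < C a) ∧ ∀ D : ℕ → ℕ, Chain D →
    (¬ Summable (fun k => 1 / Real.log (D k)) →
      ∀ᵐ α : ℝ, 0 < α → ∀ a : ℤ, ¬ IsSquare (-a) → ∀ᶠ K in atTop,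
        c a * logSum D K ≤ count a D α K ∧ (count a D α K : ℝ) ≤ C a * logSum D K) ∧
    (Summable (fun k => 1 / Real.log (D k)) →
      ∀ᵐ α : ℝ, 0 < α → ∀ a : ℤ, ¬ IsSquare (-a) → ∀ δ : ℝ, 0 < δ → ∀ᶠ k in atTop,
        ∃ p : ℕ, p.Prime ∧ (p : ℝ) < (D k : ℝ) ^ δ ∧ (p : ℤ) ∣ ((⌊α * (D k : ℝ)⌋₊ : ℕ) : ℤ) ^ 2 + a) ∧
    {α : ℝ | 0 < α → α ∈ InfinitelyOften D} ∈ residual ℝ ∧
    ∀ u v : ℝ, 0 ≤ u → u < v → dimH (InfinitelyOften D ∩ Set.Ioo u v) = 1 := by
  classical
  have H : ∀ a : ℤ, ∃ cC : ℝ × ℝ, (0 < cC.1 ∧ 0 < cC.2) ∧ (¬ IsSquare (-a) → ∀ D : ℕ → ℕ, StrictMono D →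
      (∀ k, D k ∣ D (k + 1)) → ¬ Summable (fun k => 1 / Real.log (D k)) →
      ∀ᵐ α : ℝ, 0 < α → ∀ᶠ K in atTop,
        cC.1 * logSum D K ≤ count a D α K ∧ (count a D α K : ℝ) ≤ cC.2 * logSum D K) := by
    intro a
    by_cases ha : IsSquare (-a)
    · exact ⟨(1, 1), ⟨by norm_num, by norm_num⟩, fun h => absurd ha h⟩
    · obtain ⟨c, C, hc, hC, h⟩ := Pool.Agent.W5h22.QM.divCase a ha
      exact ⟨(c, C), ⟨hc, hC⟩, fun _ D hm hd hns => h D hm hd hns⟩
  choose cC hpos hmain using H
  refine ⟨fun a => (cC a).1, fun a => (cC a).2, hpos, ?_⟩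
  rintro D ⟨hm, hd⟩
  refine ⟨?_, ?_, ?_, ?_⟩
  · intro hns
    have h1 : ∀ᵐ α : ℝ, ∀ a : ℤ, ¬ IsSquare (-a) → 0 < α → ∀ᶠ K in atTop,
        (cC a).1 * logSum D K ≤ count a D α K ∧ (count a D α K : ℝ) ≤ (cC a).2 * logSum D K := by
      rw [ae_all_iff]
      intro a
      by_cases ha : IsSquare (-a)
      · filter_upwards with α h
        exact absurd ha h
      · filter_upwards [hmain a ha D hm hd hns] with α hα
        intro _
        exact hα
    filter_upwards [h1] with α hα
    intro h0 a ha
    exact hα a ha h0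
  · intro hs
    have h1 : ∀ᵐ α : ℝ, ∀ a : ℤ, ∀ m : ℕ, ¬ IsSquare (-a) → 0 < α → ∀ᶠ k in atTop,
        ∃ p : ℕ, p.Prime ∧ (p : ℝ) < (D k : ℝ) ^ (1 / ((m : ℝ) + 1)) ∧
          (p : ℤ) ∣ ((⌊α * (D k : ℝ)⌋₊ : ℕ) : ℤ) ^ 2 + a := by
      rw [ae_all_iff]
      intro a
      rw [ae_all_iff]
      intro m
      by_cases ha : IsSquare (-a)
      · filter_upwards with α h
        exact absurd ha h
      · filter_upwards [Pool.Agent.W5h22.QM.convCase a ha D hm hs (1 / ((m : ℝ) + 1)) (by positivity)] with α hα
        intro _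
        exact hα
    filter_upwards [h1] with α hα
    intro h0 a ha δ hδ
    obtain ⟨m, hm2⟩ := exists_nat_one_div_lt hδ
    filter_upwards [hα a m ha h0, eventually_ge_atTop 1] with k hk hk1
    obtain ⟨p, hp, hp1, hp2⟩ := hk
    refine ⟨p, hp, lt_of_lt_of_le hp1 ?_, hp2⟩
    have hDk : (1 : ℝ) ≤ D k := by
      have h3 : k ≤ D k := hm.le_apply
      exact_mod_cast hk1.trans h3
    exact Real.rpow_le_rpow_of_exponent_le hDk hm2.le
  · refine mem_of_superset (Pool.Agent.W5h22.QM.resInf D hm) ?_
    intro α hα h0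
    exact ⟨h0, fun a ha => hα h0 a ha⟩
  · intro u v hu huv
    have h1 := Pool.Agent.W5h22.QM.dimInf D hm u v hu huv
    rw [← h1]
    congr 1
    ext α
    constructor
    · rintro ⟨⟨_, h2⟩, h3⟩
      exact ⟨fun a ha => h2 a ha, h3⟩
    · rintro ⟨h2, h3⟩
      exact ⟨⟨lt_of_le_of_lt hu h3.1, fun a ha => h2 a ha⟩, h3⟩

end Pool.Agent.Results.MP_391708_nt.MetricAlmostPrimes
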